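import Mathlib

set_option autoImplicit false

namespace Pool.Agent.Helper78.WeakMin

open Subgroup (closure closure_le)

/-- A sequence none of whose members lies in the subgroup generated by the others, built from
finite sets `Y` with a property `P` and normal subgroups of finite index. -/
theorem exists_indep_seq {G : Type*} [Group G] (P : Finset G → Prop) (h0 : P ∅)
    (hext : ∀ Y : Finset G, P Y → ∀ M : Subgroup G, M.Normal → M.index ≠ 0 →
      ∃ y ∈ M, (∃ Y' : Finset G, (Y' : Set G) = insert y (Y : Set G) ∧ P Y') ∧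
        ∃ M' : Subgroup G, M'.Normal ∧ M'.index ≠ 0 ∧ y ∉ closure (Y : Set G) ⊔ M') :
    ∃ y : ℕ → G, ∀ j, y j ∉ closure (y '' {i | i ≠ j}) := by
  classical
  let St := {p : Finset G × Subgroup G // P p.1 ∧ p.2.Normal ∧ p.2.index ≠ 0}
  have hstep : ∀ S : St, ∃ (y : G) (S' : St), y ∈ S.1.2 ∧ S'.1.2 ≤ S.1.2 ∧
      (S'.1.1 : Set G) = insert y (S.1.1 : Set G) ∧
      y ∉ closure (S.1.1 : Set G) ⊔ S'.1.2 := by
    rintro ⟨⟨Y, M⟩, hP, hMn, hMi⟩
    obtain ⟨y, hy, ⟨Y', hY', hPY'⟩, M', hM'n, hM'i, hM'⟩ := hext Y hP M hMn hMi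
    refine ⟨y, ⟨⟨Y', M ⊓ M'⟩, hPY', ?_, ?_⟩, hy, inf_le_left, hY', ?_⟩
    · have := hMn; have := hM'n
      exact inferInstanceAs (M ⊓ M').Normal
    · exact Subgroup.index_inf_ne_zero hMi hM'i
    · intro h
      exact hM' ((sup_le_sup_left (inf_le_right : M ⊓ M' ≤ M') _) h)
  choose f nxt hf hle hins hnot using hstep
  let S0 : St := ⟨⟨∅, ⊤⟩, h0, inferInstanceAs ((⊤ : Subgroup G).Normal), by simp⟩
  let S : ℕ → St := fun n => nxt^[n] S0
  have hS : ∀ n, S (n + 1) = nxt (S n) := fun n => Function.iterate_succ_apply' _ _ _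
  let y : ℕ → G := fun n => f (S n)
  have hmono : Antitone (fun n => (S n).1.2) := by
    apply antitone_nat_of_succ_le
    intro n
    rw [hS]; exact hle _
  have hY : ∀ n, ((S n).1.1 : Set G) = y '' {i | i < n} := by
    intro n
    induction n with
    | zero =>
      have : (S 0).1.1 = ∅ := rfl
      rw [this]; simp
    | succ n ih =>
      rw [hS, hins, ih]
      have : {i | i < n + 1} = insert n {i | i < n} := by
        ext i; simp only [Set.mem_ofPred_eq, Set.mem_insert_iff]; omega
      rw [this, Set.image_insert_eq]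
  refine ⟨y, fun j hj => ?_⟩
  apply hnot (S j)
  rw [← hS]
  refine (closure_le _).2 ?_ hj
  rintro _ ⟨i, hi, rfl⟩
  rcases lt_or_gt_of_ne (hi : i ≠ j) with h | h
  · apply Subgroup.mem_sup_left
    apply Subgroup.subset_closure
    rw [hY]
    exact ⟨i, h, rfl⟩
  · apply Subgroup.mem_sup_right
    exact hmono (Nat.succ_le_of_lt h) (hf (S i))

/-- Infinite relative index for subgroups generated by parts of an independent sequence. -/
theorem relIndex_eq_zero_of_indep {G : Type*} [Group G] {y : ℕ → G}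
    (hy : ∀ j, y j ∉ closure (y '' {i | i ≠ j})) {A B : Set ℕ} (hinf : (A \ B).Infinite) :
    (closure (y '' B)).relIndex (closure (y '' A)) = 0 := by
  classical
  by_contra hne
  have hfi : ((closure (y '' B)).subgroupOf (closure (y '' A))).FiniteIndex := ⟨hne⟩
  have hfin : Finite (closure (y '' A) ⧸ (closure (y '' B)).subgroupOf (closure (y '' A))) :=
    Subgroup.finite_quotient_of_finiteIndex
  have hmem : ∀ j : (A \ B : Set ℕ), y j ∈ closure (y '' A) := fun j =>
    Subgroup.subset_closure ⟨j, j.2.1, rfl⟩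
  let F : (A \ B : Set ℕ) → closure (y '' A) ⧸ (closure (y '' B)).subgroupOf (closure (y '' A)) :=
    fun j => QuotientGroup.mk ⟨y j, hmem j⟩
  have hF : Function.Injective F := by
    intro j k hjk
    by_contra hjk'
    have h1 := QuotientGroup.eq.1 hjk
    rw [Subgroup.mem_subgroupOf] at h1
    have h2 : (y j)⁻¹ * y k ∈ closure (y '' B) := h1
    apply hy k
    have hB : closure (y '' B) ≤ closure (y '' {i | i ≠ (k : ℕ)}) := by
      apply Subgroup.closure_mono
      rintro _ ⟨i, hi, rfl⟩
      exact ⟨i, fun h => k.2.2 (h ▸ hi), rfl⟩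
    have hj : y j ∈ closure (y '' {i | i ≠ (k : ℕ)}) :=
      Subgroup.subset_closure ⟨j, fun h => hjk' (Subtype.ext h), rfl⟩
    have := mul_mem hj (hB h2)
    simpa using this
  have : Infinite (A \ B : Set ℕ) := hinf.to_subtype
  have := Infinite.of_injective F hF
  exact not_finite (closure (y '' A) ⧸ (closure (y '' B)).subgroupOf (closure (y '' A)))

/-- An independent sequence contradicts the weak minimal condition. -/
theorem false_of_indep_of_weakMin {G : Type*} [Group G]
    (hmin : ∀ H : ℕ → Subgroup G, Antitone H →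
        ∃ n : ℕ, ∀ m : ℕ, n ≤ m → ((H (m + 1)).subgroupOf (H m)).index ≠ 0)
    {y : ℕ → G} (hy : ∀ j, y j ∉ closure (y '' {i | i ≠ j})) : False := by
  obtain ⟨n, hn⟩ := hmin (fun k => closure (y '' {i | 2 ^ k ∣ i})) (by
    apply antitone_nat_of_succ_le
    intro k
    apply Subgroup.closure_mono
    rintro _ ⟨i, hi, rfl⟩
    exact ⟨i, (pow_dvd_pow 2 (Nat.le_succ k)).trans hi, rfl⟩)
  refine hn n le_rfl (relIndex_eq_zero_of_indep hy ?_)
  apply Set.infinite_of_injective_forall_mem (f := fun j : ℕ => 2 ^ n * (2 * j + 1))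
  · intro a b hab
    have h2 : 0 < 2 ^ n := by positivity
    have := Nat.eq_of_mul_eq_mul_left h2 hab
    omega
  · intro j
    refine ⟨Dvd.intro _ rfl, ?_⟩
    rintro ⟨c, hc⟩
    rw [pow_succ, mul_assoc] at hc
    have h2 : 0 < 2 ^ n := by positivity
    have := Nat.eq_of_mul_eq_mul_left h2 hc
    omega

/-- An independent sequence contradicts the property that infinite subgroups have finite index. -/
theorem false_of_indep_of_FF {G : Type*} [Group G]
    (hFF : ∀ K : Subgroup G, Infinite K → K.index ≠ 0)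
    {y : ℕ → G} (hy : ∀ j, y j ∉ closure (y '' {i | i ≠ j})) : False := by
  have hinj : Function.Injective y := by
    intro a b hab
    by_contra hne
    exact hy a (hab ▸ Subgroup.subset_closure ⟨b, fun h => hne h.symm, rfl⟩)
  let B : Set ℕ := {i | Even i}
  have hBinf : Infinite (closure (y '' B)) := by
    have h1 : (y '' B).Infinite := by
      apply Set.Infinite.image hinj.injOn
      apply Set.infinite_of_injective_forall_mem (f := fun j : ℕ => 2 * j)
      · intro a b hab
        have : 2 * a = 2 * b := hab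
        omega
      · intro j; exact even_two_mul j
    exact (h1.mono Subgroup.subset_closure).to_subtype
  have h1 : (closure (y '' B)).relIndex (closure (y '' Set.univ)) = 0 := by
    apply relIndex_eq_zero_of_indep hy
    apply Set.infinite_of_injective_forall_mem (f := fun j : ℕ => 2 * j + 1)
    · intro a b hab
      have : 2 * a + 1 = 2 * b + 1 := hab
      omega
    · intro j
      refine ⟨trivial, ?_⟩
      intro h
      have h' : Even (2 * j + 1) := h
      rw [Nat.even_iff] at h'
      omega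
  have h2 := hFF _ hBinf
  apply h2
  have h3 : (closure (y '' B)).relIndex (closure (y '' Set.univ)) ∣ (closure (y '' B)).index :=
    Subgroup.relIndex_dvd_index_of_le (Subgroup.closure_mono (Set.image_mono (Set.subset_univ _)))
  rw [h1] at h3
  exact Nat.eq_zero_of_zero_dvd h3

/-- A residually finite group has normal subgroups of finite index avoiding a given finite set. -/
theorem exists_normal_avoid {G : Type*} [Group G]
    (hRF : ∀ g : G, g ≠ 1 → ∃ N : Subgroup G, N.Normal ∧ N.index ≠ 0 ∧ g ∉ N)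
    (S : Set G) (hS : S.Finite) :
    ∃ N : Subgroup G, N.Normal ∧ N.index ≠ 0 ∧ ∀ g ∈ S, g ≠ 1 → g ∉ N := by
  induction S, hS using Set.Finite.induction_on with
  | empty => exact ⟨⊤, inferInstance, by simp, by simp⟩
  | @insert a S _ _ ih =>
    obtain ⟨N, hN, hNi, hNS⟩ := ih
    by_cases ha : a = 1
    · refine ⟨N, hN, hNi, ?_⟩
      rintro g (rfl | hg) hg1
      · exact absurd ha hg1
      · exact hNS g hg hg1
    · obtain ⟨M, hM, hMi, hMa⟩ := hRF a ha
      refine ⟨N ⊓ M, ?_, Subgroup.index_inf_ne_zero hNi hMi, ?_⟩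
      · have := hN; have := hM
        exact inferInstanceAs (N ⊓ M).Normal
      · rintro g (rfl | hg) hg1 ⟨h1, h2⟩
        · exact hMa h2
        · exact hNS g hg hg1 h1

/-- Separating an element from a finite subgroup. -/
theorem exists_normal_sep {G : Type*} [Group G]
    (hRF : ∀ g : G, g ≠ 1 → ∃ N : Subgroup G, N.Normal ∧ N.index ≠ 0 ∧ g ∉ N)
    (F : Subgroup G) [Finite F] (y : G) (hy : y ∉ F) :
    ∃ N : Subgroup G, N.Normal ∧ N.index ≠ 0 ∧ y ∉ F ⊔ N := by
  obtain ⟨N, hN, hNi, hNS⟩ := exists_normal_avoid hRF ((fun c => c⁻¹ * y) '' (F : Set G))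
    ((Set.toFinite (F : Set G)).image _)
  refine ⟨N, hN, hNi, fun h => ?_⟩
  obtain ⟨c, hc, m, hm, hcm⟩ := Subgroup.mem_sup_of_normal_right.1 h
  have h1 : c⁻¹ * y = m := by rw [← hcm]; group
  refine hNS (c⁻¹ * y) ⟨c, hc, rfl⟩ ?_ (h1 ▸ hm)
  intro h2
  rw [inv_mul_eq_one] at h2
  exact hy (h2 ▸ hc)

end Pool.Agent.Helper78.WeakMin
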