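import Mathlib

set_option autoImplicit false

namespace Pool.Agent.Helper78.WeakMin

open Finset

/-- Frobenius type counting: if `x` (of exponent `p`) and the nontrivial elements of a finite
subgroup `S`, normalised by `x`, act without fixed points on the abelian group `W`, and `x` acts
without fixed points on `S`, then `|S|` kills `W`. -/
theorem frob_count {L W : Type*} [Group L] [CommGroup W] [MulDistribMulAction L W]
    (x : L) (p : ℕ) (hp : 0 < p) (hx : x ^ p = 1) (S : Subgroup L) [Finite S]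
    (hSx : ∀ s ∈ S, x * s * x⁻¹ ∈ S) (hS : S ≠ ⊥)
    (hSf : ∀ s ∈ S, s ≠ 1 → ∀ w : W, s • w = w → w = 1)
    (hxf : ∀ w : W, x • w = w → w = 1)
    (hSxf : ∀ s ∈ S, ∀ i : ℕ, 0 < i → i < p → x ^ i * s = s * x ^ i → s = 1)
    (w : W) : w ^ (Nat.card S) = 1 := by
  classical
  haveI : Fintype S := Fintype.ofFinite S
  -- the norm of x is trivial
  have hnorm : ∀ w : W, ∏ i ∈ range p, (x ^ i) • w = 1 := by
    intro w
    apply hxf
    have h1 : x • ∏ i ∈ range p, (x ^ i) • w = ∏ i ∈ range p, (x ^ (i + 1)) • w := by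
      rw [Finset.smul_prod']
      refine Finset.prod_congr rfl fun i _ => ?_
      rw [smul_smul, pow_succ']
    rw [h1]
    have h2 : (∏ i ∈ range p, (x ^ (i + 1)) • w) * ((x ^ 0) • w)
        = (∏ i ∈ range p, (x ^ i) • w) * ((x ^ p) • w) := by
      rw [← Finset.prod_range_succ' (fun i => (x ^ i) • w) p, Finset.prod_range_succ]
    rw [hx, pow_zero] at h2
    exact mul_right_cancel h2
  -- conjugates of x
  have hnorm' : ∀ l : L, ∀ w : W, ∏ i ∈ range p, (l * x ^ i * l⁻¹) • w = 1 := by
    intro l w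
    have h := hnorm (l⁻¹ • w)
    have h2 : l • (∏ i ∈ range p, (x ^ i) • (l⁻¹ • w)) = 1 := by rw [h, smul_one]
    rw [Finset.smul_prod'] at h2
    rw [← h2]
    refine Finset.prod_congr rfl fun i _ => ?_
    simp [smul_smul, mul_assoc]
  -- the product over S of all translates is trivial
  have hB : ∀ u : W, ∏ m : S, ((m : L) • u) = 1 := by
    intro u
    obtain ⟨s, hs, hs1⟩ : ∃ s ∈ S, s ≠ 1 := by
      by_contra hcon
      push Not at hcon
      exact hS ((Subgroup.eq_bot_iff_forall S).2 hcon)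
    apply hSf s hs hs1
    rw [Finset.smul_prod']
    let e : S ≃ S := Equiv.mulLeft (⟨s, hs⟩ : S)
    rw [← Equiv.prod_comp e (fun m : S => ((m : L) • u))]
    refine Finset.prod_congr rfl fun m _ => ?_
    simp [e, smul_smul]
  have hSxi : ∀ i : ℕ, ∀ s ∈ S, x ^ i * s * (x ^ i)⁻¹ ∈ S := by
    intro i
    induction i with
    | zero => intro s hs; simpa using hs
    | succ i ih =>
      intro s hs
      have := hSx _ (ih s hs)
      have e : x ^ (i + 1) * s * (x ^ (i + 1))⁻¹ = x * (x ^ i * s * (x ^ i)⁻¹) * x⁻¹ := by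
        rw [pow_succ']; group
      rw [e]; exact this
  have htot : ∏ l : S, ∏ i ∈ range p, (((l : L) * x ^ i * (l : L)⁻¹) • w) = 1 :=
    Finset.prod_eq_one fun l _ => hnorm' l w
  rw [Finset.prod_comm] at htot
  obtain ⟨q, rfl⟩ : ∃ q, p = q + 1 := ⟨p - 1, by omega⟩
  rw [Finset.prod_range_succ'] at htot
  have h0 : ∏ l : S, (((l : L) * x ^ 0 * (l : L)⁻¹) • w) = w ^ (Nat.card S) := by
    simp [Nat.card_eq_fintype_card]
  rw [h0] at htot
  have hrest : ∏ i ∈ range q, ∏ l : S, (((l : L) * x ^ (i + 1) * (l : L)⁻¹) • w) = 1 := by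
    refine Finset.prod_eq_one fun i hi => ?_
    have hi' : i < q := Finset.mem_range.1 hi
    let f : S → S := fun l => ⟨(l : L) * (x ^ (i + 1) * (l : L)⁻¹ * (x ^ (i + 1))⁻¹),
      S.mul_mem l.2 (hSxi (i + 1) _ (S.inv_mem l.2))⟩
    have hfi : Function.Injective f := by
      intro l l' hll
      have h1 : (l : L) * (x ^ (i + 1) * (l : L)⁻¹ * (x ^ (i + 1))⁻¹)
          = (l' : L) * (x ^ (i + 1) * (l' : L)⁻¹ * (x ^ (i + 1))⁻¹) := congrArg Subtype.val hll
      have h2 : x ^ (i + 1) * ((l' : L)⁻¹ * (l : L)) = ((l' : L)⁻¹ * (l : L)) * x ^ (i + 1) := by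
        have h3 : (l : L) * x ^ (i + 1) * (l : L)⁻¹ = (l' : L) * x ^ (i + 1) * (l' : L)⁻¹ := by
          have := congrArg (fun z => z * x ^ (i + 1)) h1
          simpa [mul_assoc] using this
        have h4 := congrArg (fun z => (l' : L)⁻¹ * z * (l : L)) h3
        simp only [mul_assoc, inv_mul_cancel, inv_mul_cancel_left, mul_one] at h4
        rw [mul_assoc]
        exact h4.symm
      have h5 := hSxf _ (S.mul_mem (S.inv_mem l'.2) l.2) (i + 1) (Nat.succ_pos i)
        (by omega) h2
      have : (l' : L) = l := by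
        rw [inv_mul_eq_one] at h5; exact h5
      exact Subtype.ext this.symm
    have hfb : Function.Bijective f := Finite.injective_iff_bijective.1 hfi
    have h6 := hB ((x ^ (i + 1)) • w)
    rw [← Function.Bijective.prod_comp hfb (fun m : S => ((m : L) • ((x ^ (i + 1)) • w)))] at h6
    rw [← h6]
    refine Finset.prod_congr rfl fun l _ => ?_
    simp [f, smul_smul, mul_assoc]
  rw [hrest, one_mul] at htot
  exact htot

end Pool.Agent.Helper78.WeakMin
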