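import Mathlib

set_option autoImplicit false

namespace Pool.Agent.Helper78.WeakMin

open MulAction

/-- The cyclic group generated by an automorphism of exponent `p` is a `p`-group. -/
theorem isPGroup_zpowers {A : Type*} [Group A] (a : A) (p : ℕ) (ha : a ^ p = 1) :
    IsPGroup p (Subgroup.zpowers a) := by
  rintro ⟨g, hg⟩
  obtain ⟨k, rfl⟩ := Subgroup.mem_zpowers_iff.1 hg
  refine ⟨1, Subtype.ext ?_⟩
  simp only [pow_one, SubmonoidClass.mk_pow, OneMemClass.coe_one]
  rw [← zpow_natCast, ← zpow_mul, mul_comm, zpow_mul, zpow_natCast, ha, one_zpow]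

/-- A finite group with a fixed point free automorphism of prime order `p` has order prime
to `p`. -/
theorem not_dvd_card_of_fpf {K : Type*} [Group K] [Finite K] (φ : MulAut K) (p : ℕ)
    [hp : Fact p.Prime] (hφ : φ ^ p = 1) (hf : ∀ k : K, φ k = k → k = 1) :
    ¬ p ∣ Nat.card K := by
  have hP := isPGroup_zpowers φ p hφ
  have h := hP.card_modEq_card_fixedPoints K
  have h1 : Nat.card (fixedPoints (Subgroup.zpowers φ) K) = 1 := by
    rw [Nat.card_eq_one_iff_unique]
    refine ⟨⟨?_⟩, ⟨⟨1, ?_⟩⟩⟩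
    · rintro ⟨a, ha⟩ ⟨b, hb⟩
      have ha' := ha ⟨φ, Subgroup.mem_zpowers φ⟩
      have hb' := hb ⟨φ, Subgroup.mem_zpowers φ⟩
      have ha1 : a = 1 := hf a ha'
      have hb1 : b = 1 := hf b hb'
      subst ha1; subst hb1; rfl
    · intro g
      exact smul_one g
  rw [h1] at h
  intro hd
  have h2 : Nat.card K ≡ 0 [MOD p] := (Nat.modEq_zero_iff_dvd).2 hd
  have h3 : 1 ≡ 0 [MOD p] := h.symm.trans h2
  have h4 : p ∣ 1 := (Nat.modEq_zero_iff_dvd).1 h3
  exact hp.out.one_lt.ne' (Nat.dvd_one.1 h4)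

/-- An automorphism of prime order `p` of a finite group of order prime to `p` leaves some Sylow
`s`-subgroup invariant. -/
theorem exists_inv_sylow {K : Type*} [Group K] [Finite K] (φ : MulAut K) (p : ℕ)
    [Fact p.Prime] (hφ : φ ^ p = 1) (hpK : ¬ p ∣ Nat.card K) (s : ℕ) [Fact s.Prime] :
    ∃ P : Sylow s K, ∀ k ∈ P, φ k ∈ P := by
  have hP := isPGroup_zpowers φ p hφ
  have hpS : ¬ p ∣ Nat.card (Sylow s K) := by
    intro hd
    obtain ⟨Q⟩ : Nonempty (Sylow s K) := inferInstance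
    exact hpK ((hd.trans Q.card_dvd_index).trans (Subgroup.index_dvd_card _))
  obtain ⟨P, hfix⟩ := hP.nonempty_fixed_point_of_prime_not_dvd_card (Sylow s K) hpS
  refine ⟨P, fun k hk => ?_⟩
  have h1 : φ • P = P := hfix ⟨φ, Subgroup.mem_zpowers φ⟩
  rw [← h1]
  change φ k ∈ (φ • P : Sylow s K).toSubgroup
  rw [Sylow.pointwise_smul_def]
  exact Subgroup.smul_mem_pointwise_smul k φ _ hk

end Pool.Agent.Helper78.WeakMin
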