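import Mathlib
import Pool.Agent.Helper78.WeakMin.FrobCount
import Pool.Agent.Helper78.WeakMin.InvSylow

set_option autoImplicit false

namespace Pool.Agent.Helper78.WeakMin

/-- A version of `frob_count` for an action given by a homomorphism to the automorphism group
of a group that happens to be commutative. -/
theorem frob_count' {L W : Type*} [Group L] [Group W] (hW : ∀ a b : W, a * b = b * a)
    (ρ : L →* MulAut W)
    (x : L) (p : ℕ) (hp : 0 < p) (hx : x ^ p = 1) (S : Subgroup L) [Finite S]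
    (hSx : ∀ s ∈ S, x * s * x⁻¹ ∈ S) (hS : S ≠ ⊥)
    (hSf : ∀ s ∈ S, s ≠ 1 → ∀ w : W, ρ s w = w → w = 1)
    (hxf : ∀ w : W, ρ x w = w → w = 1)
    (hSxf : ∀ s ∈ S, ∀ i : ℕ, 0 < i → i < p → x ^ i * s = s * x ^ i → s = 1)
    (w : W) : w ^ (Nat.card S) = 1 := by
  let _ : CommGroup W := { (inferInstance : Group W) with mul_comm := hW }
  let _ : MulDistribMulAction L W := MulDistribMulAction.compHom W ρ
  exact frob_count (L := L) (W := W) x p hp hx S hSx hS
    (fun s hs hs1 w h => hSf s hs hs1 w h) (fun w h => hxf w h) hSxf w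

/-- If `x` has exponent a prime `p` then `x` is a power of `x ^ i` for `0 < i < p`. -/
theorem commute_of_pow {G : Type*} [Group G] {x k : G} {p : ℕ} (hp : p.Prime) (hx : x ^ p = 1)
    {i : ℕ} (hi : 0 < i) (hip : i < p) (h : x ^ i * k = k * x ^ i) : x * k = k * x := by
  have hc : Commute (x ^ i) k := h
  have hco : Nat.Coprime i p :=
    ((Nat.Prime.coprime_iff_not_dvd hp).2 (Nat.not_dvd_of_pos_of_lt hi hip)).symm
  -- x = (x^i)^a * (x^p)^b
  have hb : x = (x ^ i) ^ (Nat.gcdA i p) := by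
    have hgcd : ((Nat.gcd i p : ℕ) : ℤ) = i * Nat.gcdA i p + p * Nat.gcdB i p :=
      Nat.gcd_eq_gcd_ab i p
    rw [hco] at hgcd
    calc x = x ^ ((1 : ℕ) : ℤ) := by simp
      _ = x ^ ((i : ℤ) * Nat.gcdA i p + p * Nat.gcdB i p) := by rw [hgcd]
      _ = (x ^ i) ^ (Nat.gcdA i p) := by
        rw [zpow_add, zpow_mul, zpow_mul, zpow_natCast, zpow_natCast, hx, one_zpow, mul_one]
  rw [hb]
  exact (hc.zpow_left _)

/-- The finite group step. -/
theorem kernel_trivial {J : Type*} [Group J] [Finite J] (K K3 : Subgroup J) [K.Normal]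
    [K3.Normal] (hle : K3 ≤ K) (x : J) (p : ℕ) [hp : Fact p.Prime] (hx : x ^ p = 1)
    (hxK : ∀ k ∈ K, x * k = k * x → k = 1) (s : ℕ) [hs : Fact s.Prime]
    (hsK : s ∣ Nat.card K) (hsK3 : ¬ s ∣ Nat.card K3)
    (hf : ∀ l ∈ K, l ∉ K3 → ∀ c ∈ K3, l * c = c * l → c = 1) : K3 = ⊥ := by
  classical
  by_contra hne
  have hcard : Nat.card K3 ≠ 1 := fun h => hne (Subgroup.card_eq_one.1 h)
  let t := (Nat.card K3).minFac
  have ht : t.Prime := Nat.minFac_prime hcard
  haveI : Fact t.Prime := ⟨ht⟩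
  have htK3 : t ∣ Nat.card K3 := Nat.minFac_dvd _
  have hts : t ≠ s := fun h => hsK3 (h ▸ htK3)
  -- x acts on K3
  let φ3 : MulAut K3 := MulAut.conjNormal x
  have hφ3 : φ3 ^ p = 1 := by
    change (MulAut.conjNormal x) ^ p = 1
    rw [← map_pow, hx, map_one]
  have hfix3 : ∀ k : K3, φ3 k = k → k = 1 := by
    intro k hk
    have h1 : x * (k : J) * x⁻¹ = k := congrArg Subtype.val hk
    exact Subtype.ext (hxK k (hle k.2) (mul_inv_eq_iff_eq_mul.1 h1))
  have hpK3 : ¬ p ∣ Nat.card K3 := not_dvd_card_of_fpf φ3 p hφ3 hfix3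
  obtain ⟨T, hT⟩ := exists_inv_sylow φ3 p hφ3 hpK3 t
  set T' : Subgroup J := (T : Subgroup K3).map K3.subtype with hT'
  have hT'K3 : T' ≤ K3 := by
    rintro _ ⟨a, _, rfl⟩; exact a.2
  have hxT : ∀ m ∈ T', x * m * x⁻¹ ∈ T' := by
    rintro _ ⟨a, ha, rfl⟩
    exact ⟨φ3 a, hT a ha, rfl⟩
  have hxT' : ∀ i : ℕ, ∀ m ∈ T', x ^ i * m * (x ^ i)⁻¹ ∈ T' := by
    intro i
    induction i with
    | zero => intro m hm; simpa using hm
    | succ i ih =>
      intro m hm
      have := hxT _ (ih m hm)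
      have e : x ^ (i + 1) * m * (x ^ (i + 1))⁻¹ = x * (x ^ i * m * (x ^ i)⁻¹) * x⁻¹ := by
        rw [pow_succ']; group
      rw [e]; exact this
  have hxinv : x⁻¹ = x ^ (p - 1) := by
    rw [inv_eq_iff_mul_eq_one, ← pow_succ', Nat.sub_add_cancel hp.out.one_lt.le, hx]
  have hxN : x ∈ Subgroup.normalizer (T' : Set J) := by
    rw [Subgroup.mem_normalizer_iff]
    intro h
    refine ⟨fun hh => hxT h hh, fun hh => ?_⟩
    have := hxT' (p - 1) _ hh
    rw [← hxinv] at this
    simpa [mul_assoc] using this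
  have hFrat : Subgroup.normalizer (T' : Set J) ⊔ K3 = ⊤ := Sylow.normalizer_sup_eq_top T
  set J1 : Subgroup J := Subgroup.normalizer (T' : Set J) with hJ1
  -- s divides the order of J1 ⊓ K
  have hsM : s ∣ Nat.card (K.subgroupOf J1) := by
    obtain ⟨⟨k, hk⟩, hks⟩ := exists_prime_orderOf_dvd_card' (G := K) s hsK
    have hks' : orderOf k = s := by
      rw [← hks]; exact (Subgroup.orderOf_mk k hk).symm
    have hkK3 : k ∉ K3 := by
      intro hk3
      apply hsK3
      have := orderOf_dvd_natCard (⟨k, hk3⟩ : K3)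
      rwa [Subgroup.orderOf_mk, hks'] at this
    have hkt : k ∈ J1 ⊔ K3 := by rw [hFrat]; trivial
    obtain ⟨j, hj, c, hc, hjc⟩ := Subgroup.mem_sup_of_normal_right.1 hkt
    have hjK : j ∈ K := by
      have : j = k * c⁻¹ := by rw [← hjc]; group
      rw [this]; exact K.mul_mem hk (K.inv_mem (hle hc))
    have h1 : (QuotientGroup.mk' K3 k) = QuotientGroup.mk' K3 j := by
      rw [← hjc, map_mul, (QuotientGroup.eq_one_iff c).2 hc |> fun h => (by
        simpa using h : QuotientGroup.mk' K3 c = 1), mul_one]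
    have h2 : orderOf (QuotientGroup.mk' K3 k) = s := by
      apply orderOf_eq_prime
      · rw [← map_pow, ← hks', pow_orderOf_eq_one, map_one]
      · intro h
        exact hkK3 ((QuotientGroup.eq_one_iff k).1 h)
    have h3 : s ∣ orderOf j := by
      rw [← h2, h1]
      exact orderOf_map_dvd (QuotientGroup.mk' K3) j
    have h4 : orderOf j ∣ Nat.card (K.subgroupOf J1) := by
      have h5 := orderOf_dvd_natCard (⟨⟨j, hj⟩, hjK⟩ : K.subgroupOf J1)
      have h6 : orderOf (⟨⟨j, hj⟩, hjK⟩ : K.subgroupOf J1) = orderOf j := by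
        rw [← Subgroup.orderOf_coe, ← Subgroup.orderOf_coe]
      rwa [h6] at h5
    exact h3.trans h4
  -- x acts on M = K ∩ J1
  let x1 : J1 := ⟨x, hxN⟩
  have hx1 : x1 ^ p = 1 := Subtype.ext hx
  let M : Subgroup J1 := K.subgroupOf J1
  let φM : MulAut M := MulAut.conjNormal x1
  have hφM : φM ^ p = 1 := by
    change (MulAut.conjNormal x1) ^ p = 1
    rw [← map_pow, hx1, map_one]
  have hfixM : ∀ k : M, φM k = k → k = 1 := by
    intro k hk
    have h1 : x1 * (k : J1) * x1⁻¹ = k := congrArg Subtype.val hk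
    have h2 : x * ((k : J1) : J) * x⁻¹ = (k : J1) := congrArg Subtype.val h1
    have h3 := hxK _ (Subgroup.mem_subgroupOf.1 k.2) (mul_inv_eq_iff_eq_mul.1 h2)
    exact Subtype.ext (Subtype.ext h3)
  have hpM : ¬ p ∣ Nat.card M := not_dvd_card_of_fpf φM p hφM hfixM
  obtain ⟨P, hPinv⟩ := exists_inv_sylow φM p hφM hpM s
  have hPne : (P : Subgroup M) ≠ ⊥ := P.ne_bot_of_dvd_card hsM
  let S : Subgroup J1 := (P : Subgroup M).map M.subtype
  have hSne : S ≠ ⊥ := by
    intro h
    apply hPne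
    exact (Subgroup.map_eq_bot_iff_of_injective _ M.subtype_injective).1 h
  have hSp : ∀ g ∈ S, ∃ k : ℕ, g ^ s ^ k = 1 := by
    rintro _ ⟨a, ha, rfl⟩
    obtain ⟨k, hk⟩ := P.isPGroup' ⟨a, ha⟩
    refine ⟨k, ?_⟩
    have := congrArg (fun z : (P : Subgroup M) => ((z : M) : J1)) hk
    simpa using this
  have hSK : ∀ g ∈ S, (g : J) ∈ K := by
    rintro _ ⟨a, _, rfl⟩
    exact Subgroup.mem_subgroupOf.1 a.2
  have hSK3 : ∀ g ∈ S, g ≠ 1 → (g : J) ∉ K3 := by
    intro g hg hg1 hg3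
    obtain ⟨k, hk⟩ := hSp g hg
    have h1 : orderOf (g : J) ∣ s ^ k := by
      apply orderOf_dvd_of_pow_eq_one
      have := congrArg (fun z : J1 => (z : J)) hk
      simpa using this
    have h2 : orderOf (g : J) ∣ Nat.card K3 := by
      have := orderOf_dvd_natCard (⟨g, hg3⟩ : K3)
      rwa [Subgroup.orderOf_mk] at this
    have h3 : Nat.Coprime (s ^ k) (Nat.card K3) :=
      Nat.Coprime.pow_left _ ((Nat.Prime.coprime_iff_not_dvd hs.out).2 hsK3)
    have h4 : orderOf (g : J) = 1 := Nat.eq_one_of_dvd_coprimes h3 h1 h2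
    rw [orderOf_eq_one_iff] at h4
    exact hg1 (Subtype.ext h4)
  -- the t-group T1 and its centre
  let T1 : Subgroup J1 := T'.subgroupOf J1
  haveI hT1n : T1.Normal := Subgroup.normal_in_normalizer
  have hTp : IsPGroup t T' := T.isPGroup'.map K3.subtype
  have hT1p : IsPGroup t T1 := by
    have e : T1 ≃* T' := Subgroup.subgroupOfEquivOfLe (Subgroup.le_normalizer)
    exact hTp.of_equiv e.symm
  have hT1ne : Nontrivial T1 := by
    have h1 : (T : Subgroup K3) ≠ ⊥ := T.ne_bot_of_dvd_card htK3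
    obtain ⟨a, ha, ha1⟩ : ∃ a ∈ (T : Subgroup K3), a ≠ 1 := by
      by_contra hcon
      push Not at hcon
      exact h1 ((Subgroup.eq_bot_iff_forall _).2 hcon)
    have haT : (a : J) ∈ T' := ⟨a, ha, rfl⟩
    refine ⟨⟨⟨a, Subgroup.le_normalizer haT⟩, haT⟩, 1, ?_⟩
    intro h
    have := congrArg (fun z : T1 => ((z : J1) : J)) h
    exact ha1 (Subtype.ext (by simpa using this))
  have hCn : Nontrivial (Subgroup.center T1) := hT1p.center_nontrivial
  let W : Subgroup J1 := (Subgroup.center T1).map T1.subtype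
  haveI : W.Normal := inferInstance
  have hWT : ∀ w ∈ W, (w : J) ∈ T' := by
    rintro _ ⟨a, _, rfl⟩
    exact Subgroup.mem_subgroupOf.1 a.2
  have hWc : ∀ a b : W, a * b = b * a := by
    rintro ⟨_, a, ha, rfl⟩ ⟨_, b, hb, rfl⟩
    apply Subtype.ext
    change (a : J1) * b = b * a
    exact congrArg Subtype.val (Subgroup.mem_center_iff.1 hb a)
  have hmain : ∀ w : W, w ^ (Nat.card S) = 1 := by
    refine frob_count' hWc (MulAut.conjNormal (H := W)) x1 p hp.out.pos hx1 S ?_ hSne ?_ ?_ ?_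
    · rintro _ ⟨a, ha, rfl⟩
      exact ⟨φM a, hPinv a ha, rfl⟩
    · intro g hg hg1 w hw
      have h1 : g * (w : J1) * g⁻¹ = w := congrArg Subtype.val hw
      have h2 : (g : J) * ((w : J1) : J) * (g : J)⁻¹ = (w : J1) := congrArg Subtype.val h1
      have h3 := hf g (hSK g hg) (hSK3 g hg hg1) _ (hT'K3 (hWT _ w.2))
        (mul_inv_eq_iff_eq_mul.1 h2)
      exact Subtype.ext (Subtype.ext h3)
    · intro w hw
      have h1 : x1 * (w : J1) * x1⁻¹ = w := congrArg Subtype.val hw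
      have h2 : x * ((w : J1) : J) * x⁻¹ = (w : J1) := congrArg Subtype.val h1
      have h3 := hxK _ (hle (hT'K3 (hWT _ w.2))) (mul_inv_eq_iff_eq_mul.1 h2)
      exact Subtype.ext (Subtype.ext h3)
    · intro g hg i hi hip hc
      have h1 : x ^ i * (g : J) = g * x ^ i := by
        have := congrArg Subtype.val hc
        simpa using this
      have h2 := commute_of_pow hp.out hx hi hip h1
      exact Subtype.ext (hxK _ (hSK g hg) h2)
  -- contradiction
  obtain ⟨c, hc1⟩ := exists_ne (1 : Subgroup.center T1)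
  have hcW : ((c : T1) : J1) ∈ W := ⟨c, c.2, rfl⟩
  have h1 := hmain ⟨_, hcW⟩
  have h2 : (c : T1) ^ Nat.card S = 1 := by
    have := congrArg (fun z : W => (z : J1)) h1
    apply Subtype.ext
    simpa using this
  obtain ⟨k, hk⟩ := hT1p (c : T1)
  have hScard : ∃ m, Nat.card S = s ^ m := by
    have hSP : IsPGroup s S := P.isPGroup'.map M.subtype
    exact IsPGroup.iff_card.1 hSP
  obtain ⟨m, hm⟩ := hScard
  have h3 : orderOf (c : T1) ∣ s ^ m := hm ▸ orderOf_dvd_of_pow_eq_one h2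
  have h4 : orderOf (c : T1) ∣ t ^ k := orderOf_dvd_of_pow_eq_one hk
  have h5 : Nat.Coprime (s ^ m) (t ^ k) :=
    Nat.Coprime.pow _ _ ((Nat.coprime_primes hs.out ht).2 hts.symm)
  have h6 : orderOf (c : T1) = 1 := Nat.eq_one_of_dvd_coprimes h5 h3 h4
  rw [orderOf_eq_one_iff] at h6
  exact hc1 (Subtype.ext h6)

end Pool.Agent.Helper78.WeakMin
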