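import Mathlib
import Pool.Agent.Helper78.WeakMin.Indep
import Pool.Agent.Helper78.WeakMin.FiniteGroup

set_option autoImplicit false

namespace Pool.Agent.Helper78.WeakMin

open Subgroup (closure closure_le centralizer)

/-- In a torsion group two involutions generate a finite group. -/
theorem finite_closure_involutions {G : Type*} [Group G] (htor : ∀ g : G, IsOfFinOrder g)
    (x x' : G) (hx : x * x = 1) (hx' : x' * x' = 1) : Finite (closure {x, x'}) := by
  classical
  set r := x * x' with hr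
  have hrf : Finite (Subgroup.zpowers r) := finite_zpowers.2 (htor r)
  let S : Set G := (Subgroup.zpowers r : Set G) ∪ (fun g => g * x) '' (Subgroup.zpowers r : Set G)
  have hSf : S.Finite := (Set.toFinite _).union ((Set.toFinite _).image _)
  have hxi : x⁻¹ = x := inv_eq_of_mul_eq_one_left hx
  have hxi' : x'⁻¹ = x' := inv_eq_of_mul_eq_one_left hx'
  have hrx : r⁻¹ * x = x' := by
    rw [hr, mul_inv_rev, hxi, hxi', mul_assoc, hx, mul_one]
  have h1 : ∀ g ∈ S, g * x ∈ S := by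
    rintro g (hg | ⟨g, hg, rfl⟩)
    · exact Or.inr ⟨g, hg, rfl⟩
    · left; change g * x * x ∈ _
      rw [mul_assoc, hx, mul_one]; exact hg
  have h2 : ∀ g ∈ S, g * x' ∈ S := by
    rintro g (hg | ⟨g, hg, rfl⟩)
    · right
      refine ⟨g * r⁻¹, mul_mem hg (inv_mem (Subgroup.mem_zpowers r)), ?_⟩
      change g * r⁻¹ * x = g * x'
      rw [mul_assoc, hrx]
    · left
      change g * x * x' ∈ _
      rw [mul_assoc, ← hr]
      exact mul_mem hg (Subgroup.mem_zpowers r)
  have hsub : (closure {x, x'} : Set G) ⊆ S := by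
    intro g hg
    refine Subgroup.closure_induction_right (p := fun g _ => g ∈ S) ?_ ?_ ?_ hg
    · exact Or.inl (one_mem _)
    · rintro g _ y (rfl | hy) hgS
      · exact h1 g hgS
      · rw [Set.mem_singleton_iff.1 hy]; exact h2 g hgS
    · rintro g _ y (rfl | hy) hgS
      · rw [hxi]; exact h1 g hgS
      · rw [Set.mem_singleton_iff.1 hy, hxi']; exact h2 g hgS
  exact (hSf.subset hsub).to_subtype

/-- The Frobenius-like property of an element `x` acting on a normal subgroup `N` without fixed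
points, such that `x` and its conjugates under `N` generate finite subgroups with `x`. -/
theorem frob_prop {G : Type*} [Group G] (N : Subgroup G) [hN : N.Normal] (x : G)
    (hxN : ∀ k ∈ N, x * k = k * x → k = 1)
    (hfin : ∀ g ∈ N, Finite (closure {x, g⁻¹ * x * g})) (n : G) (hn : n ∈ N) :
    Finite (closure {x, n}) ∧ ∃ k ∈ N ⊓ closure {x, n}, n = x⁻¹ * k⁻¹ * x * k := by
  set J := closure {x, n⁻¹ * x * n} with hJ
  have hJf : Finite J := hfin n hn
  have hxJ : x ∈ J := Subgroup.subset_closure (by simp)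
  have hmem : ∀ a ∈ N, x⁻¹ * a⁻¹ * x * a ∈ N := fun a ha => by
    have h1 := hN.conj_mem _ (N.inv_mem ha) x⁻¹
    have h2 := N.mul_mem h1 ha
    simpa [mul_assoc] using h2
  have hinj : ∀ a ∈ N, ∀ b ∈ N, x⁻¹ * a⁻¹ * x * a = x⁻¹ * b⁻¹ * x * b → a = b := by
    intro a ha b hb h
    have h1 : a⁻¹ * x * a = b⁻¹ * x * b := by
      have := congrArg (fun z => x * z) h
      simpa [mul_assoc] using this
    have h2 : x * (b * a⁻¹) = (b * a⁻¹) * x := by
      calc x * (b * a⁻¹) = b * (b⁻¹ * x * b) * a⁻¹ := by group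
        _ = b * (a⁻¹ * x * a) * a⁻¹ := by rw [h1]
        _ = (b * a⁻¹) * x := by group
    have h3 := hxN _ (N.mul_mem hb (N.inv_mem ha)) h2
    exact (mul_inv_eq_one.1 h3).symm
  -- surjectivity on finite x-invariant subgroups
  have hsurj : ∀ J : Subgroup G, Finite J → x ∈ J → ∀ m ∈ N ⊓ J,
      ∃ k ∈ N ⊓ J, m = x⁻¹ * k⁻¹ * x * k := by
    intro J hJf hxJ m hm
    have hKf : Finite ↥(N ⊓ J) :=
      Finite.of_injective (Subgroup.inclusion (inf_le_right : N ⊓ J ≤ J))
        (Subgroup.inclusion_injective _)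
    let f : ↥(N ⊓ J) → ↥(N ⊓ J) := fun k =>
      ⟨x⁻¹ * (k : G)⁻¹ * x * k, hmem _ k.2.1,
        J.mul_mem (J.mul_mem (J.mul_mem (J.inv_mem hxJ) (J.inv_mem k.2.2)) hxJ) k.2.2⟩
    have hf : Function.Injective f := by
      intro a b hab
      exact Subtype.ext (hinj _ a.2.1 _ b.2.1 (congrArg Subtype.val hab))
    obtain ⟨k, hk⟩ := (Finite.injective_iff_surjective.1 hf) ⟨m, hm⟩
    exact ⟨k, k.2, (congrArg Subtype.val hk).symm⟩
  have hcomm : x⁻¹ * n⁻¹ * x * n ∈ N ⊓ J := by
    refine ⟨hmem n hn, ?_⟩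
    have h1 : n⁻¹ * x * n ∈ J := Subgroup.subset_closure (by simp)
    have h2 := J.mul_mem (J.inv_mem hxJ) h1
    simpa [mul_assoc] using h2
  obtain ⟨k, hk, hkn⟩ := hsurj J hJf hxJ _ hcomm
  have hnk : n = k := hinj n hn k hk.1 hkn
  have hnJ : n ∈ J := hnk ▸ hk.2
  have hle : closure {x, n} ≤ J := by
    rw [closure_le]
    rintro z (rfl | hz)
    · exact hxJ
    · rw [Set.mem_singleton_iff.1 hz]; exact hnJ
  have hfin' : Finite (closure {x, n}) :=
    Finite.of_injective (Subgroup.inclusion hle) (Subgroup.inclusion_injective _)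
  refine ⟨hfin', hsurj _ hfin' (Subgroup.subset_closure (by simp)) n
    ⟨hn, Subgroup.subset_closure (by simp)⟩⟩

/-- `N` contains no element of order `p`. -/
theorem no_order_p {G : Type*} [Group G] (N : Subgroup G) [hN : N.Normal] (x : G) (p : ℕ)
    [hp : Fact p.Prime] (hx : x ^ p = 1)
    (hxN : ∀ k ∈ N, x * k = k * x → k = 1)
    (hfin : ∀ g ∈ N, Finite (closure {x, g⁻¹ * x * g})) (n : G) (hn : n ∈ N) :
    orderOf n ≠ p := by
  intro hord
  obtain ⟨hf, -⟩ := frob_prop N x hxN hfin n hn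
  set J := closure {x, n} with hJ
  have hxJ : x ∈ J := Subgroup.subset_closure (by simp)
  have hnJ : n ∈ J := Subgroup.subset_closure (by simp)
  let x1 : J := ⟨x, hxJ⟩
  let K : Subgroup J := N.subgroupOf J
  let φ : MulAut K := MulAut.conjNormal x1
  have hφ : φ ^ p = 1 := by
    change (MulAut.conjNormal x1) ^ p = 1
    rw [← map_pow, show x1 ^ p = 1 from Subtype.ext hx, map_one]
  have hfix : ∀ k : K, φ k = k → k = 1 := by
    intro k hk
    have h1 : x1 * (k : J) * x1⁻¹ = k := congrArg Subtype.val hk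
    have h2 : x * ((k : J) : G) * x⁻¹ = (k : J) := congrArg Subtype.val h1
    have h3 := hxN _ (Subgroup.mem_subgroupOf.1 k.2) (mul_inv_eq_iff_eq_mul.1 h2)
    exact Subtype.ext (Subtype.ext h3)
  have hpK : ¬ p ∣ Nat.card K := not_dvd_card_of_fpf φ p hφ hfix
  apply hpK
  have h5 := orderOf_dvd_natCard (⟨⟨n, hnJ⟩, hn⟩ : K)
  have h6 : orderOf (⟨⟨n, hnJ⟩, hn⟩ : K) = orderOf n := by
    rw [← Subgroup.orderOf_coe, ← Subgroup.orderOf_coe]
  rwa [h6, hord] at h5

/-- Existence of an abelian elementary invariant subgroup. -/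
theorem exists_elem_abelian {G : Type*} [Group G] (N : Subgroup G) [hN : N.Normal] (x : G) (p : ℕ)
    [hp : Fact p.Prime] (hx : x ^ p = 1)
    (hxN : ∀ k ∈ N, x * k = k * x → k = 1)
    (hfin : ∀ g ∈ N, Finite (closure {x, g⁻¹ * x * g})) (n : G) (hn : n ∈ N) (hn1 : n ≠ 1) :
    ∃ (s : ℕ) (V : Subgroup G), s.Prime ∧ Finite V ∧ V ≤ N ∧ V ≠ ⊥ ∧
      (∀ v ∈ V, v ^ s = 1) ∧ (∀ v ∈ V, ∀ w ∈ V, v * w = w * v) ∧
      (∀ v ∈ V, x * v * x⁻¹ ∈ V) := by
  obtain ⟨hf, -⟩ := frob_prop N x hxN hfin n hn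
  set J := closure {x, n} with hJ
  have hxJ : x ∈ J := Subgroup.subset_closure (by simp)
  have hnJ : n ∈ J := Subgroup.subset_closure (by simp)
  let x1 : J := ⟨x, hxJ⟩
  let K : Subgroup J := N.subgroupOf J
  let φ : MulAut K := MulAut.conjNormal x1
  have hφ : φ ^ p = 1 := by
    change (MulAut.conjNormal x1) ^ p = 1
    rw [← map_pow, show x1 ^ p = 1 from Subtype.ext hx, map_one]
  have hfix : ∀ k : K, φ k = k → k = 1 := by
    intro k hk
    have h1 : x1 * (k : J) * x1⁻¹ = k := congrArg Subtype.val hk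
    have h2 : x * ((k : J) : G) * x⁻¹ = (k : J) := congrArg Subtype.val h1
    have h3 := hxN _ (Subgroup.mem_subgroupOf.1 k.2) (mul_inv_eq_iff_eq_mul.1 h2)
    exact Subtype.ext (Subtype.ext h3)
  have hpK : ¬ p ∣ Nat.card K := not_dvd_card_of_fpf φ p hφ hfix
  have hKne : K ≠ ⊥ := by
    intro h
    have : (⟨n, hnJ⟩ : J) ∈ K := hn
    rw [h, Subgroup.mem_bot] at this
    exact hn1 (congrArg Subtype.val this)
  have hcard : Nat.card K ≠ 1 := fun h => hKne (Subgroup.card_eq_one.1 h)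
  let s := (Nat.card K).minFac
  have hs : s.Prime := Nat.minFac_prime hcard
  have : Fact s.Prime := ⟨hs⟩
  obtain ⟨P, hP⟩ := exists_inv_sylow φ p hφ hpK s
  have hPne : (P : Subgroup K) ≠ ⊥ := P.ne_bot_of_dvd_card (Nat.minFac_dvd _)
  have hPnt : Nontrivial P := (Subgroup.nontrivial_iff_ne_bot _).2 hPne
  have hCn : Nontrivial (Subgroup.center P) := P.isPGroup'.center_nontrivial
  obtain ⟨c, hc1⟩ := exists_ne (1 : Subgroup.center P)
  -- the embedding of P in G
  let ι : P →* G := (J.subtype.comp K.subtype).comp (P : Subgroup K).subtype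
  have hι : Function.Injective ι := by
    intro a b hab
    exact Subtype.ext (Subtype.ext (Subtype.ext hab))
  let V0 : Subgroup G := (Subgroup.center P).map ι
  let V : Subgroup G :=
    { carrier := {v | v ∈ V0 ∧ v ^ s = 1}
      one_mem' := ⟨one_mem _, one_pow _⟩
      mul_mem' := by
        rintro _ _ ⟨⟨a, ha, rfl⟩, ha'⟩ ⟨⟨b, hb, rfl⟩, hb'⟩
        refine ⟨⟨a * b, mul_mem ha hb, map_mul _ _ _⟩, ?_⟩
        have hab : Commute (ι a) (ι b) := by
          have : a * b = b * a := (Subgroup.mem_center_iff.1 hb a)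
          change ι a * ι b = ι b * ι a
          rw [← map_mul, this, map_mul]
        rw [hab.mul_pow, ha', hb', mul_one]
      inv_mem' := by
        rintro _ ⟨h1, h2⟩
        exact ⟨inv_mem h1, by rw [inv_pow, h2, inv_one]⟩ }
  have hVJ : V ≤ J := by
    rintro _ ⟨⟨a, _, rfl⟩, _⟩
    exact (((a : K) : J)).2
  refine ⟨s, V, hs, Finite.of_injective (Subgroup.inclusion hVJ) (Subgroup.inclusion_injective _),
    ?_, ?_, fun v hv => hv.2, ?_, ?_⟩
  · rintro _ ⟨⟨a, _, rfl⟩, _⟩
    exact Subgroup.mem_subgroupOf.1 (a : K).2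
  · -- nontrivial : a power of c
    obtain ⟨k, hk⟩ := P.isPGroup' (c : P)
    have hord : orderOf (c : P) ≠ 1 := by
      intro h
      rw [orderOf_eq_one_iff] at h
      exact hc1 (Subtype.ext h)
    have hdvd : orderOf (c : P) ∣ s ^ k := orderOf_dvd_of_pow_eq_one hk
    obtain ⟨j, hj, hj'⟩ := (Nat.dvd_prime_pow hs).1 hdvd
    have hj0 : j ≠ 0 := by
      rintro rfl
      exact hord (by simpa using hj')
    obtain ⟨i, rfl⟩ := Nat.exists_eq_succ_of_ne_zero hj0
    intro hbot
    have hmem : ι ((c : P) ^ s ^ i) ∈ V := by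
      refine ⟨⟨(c : P) ^ s ^ i, pow_mem c.2 _, rfl⟩, ?_⟩
      rw [← map_pow, ← pow_mul, ← pow_succ, ← hj', pow_orderOf_eq_one, map_one]
    rw [hbot, Subgroup.mem_bot] at hmem
    have h2 : (c : P) ^ s ^ i = 1 := hι (by rw [hmem, map_one])
    have h3 := Nat.le_of_dvd (pow_pos hs.pos _) (orderOf_dvd_of_pow_eq_one h2)
    rw [hj', pow_succ] at h3
    have h4 : 0 < s ^ i := pow_pos hs.pos _
    have h5 := hs.two_le
    nlinarith
  · rintro _ ⟨⟨a, ha, rfl⟩, ha'⟩ _ ⟨⟨b, hb, rfl⟩, hb'⟩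
    have : a * b = b * a := (Subgroup.mem_center_iff.1 hb a)
    rw [← map_mul, this, map_mul]
  · rintro _ ⟨⟨a, ha, rfl⟩, ha'⟩
    refine ⟨⟨⟨φ (a : K), hP _ a.2⟩, ?_, rfl⟩, ?_⟩
    · rw [SetLike.mem_coe, Subgroup.mem_center_iff]
      intro b
      -- b = φ b0 with b0 ∈ P
      have hinv : ∀ b : P, (φ⁻¹ : MulAut K) (b : K) ∈ P := by
        intro b
        have h1 : ∀ i : ℕ, ∀ b ∈ P, (φ ^ i) b ∈ P := by
          intro i
          induction i with
          | zero => intro b hb; simpa using hb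
          | succ i ih =>
            intro b hb
            rw [pow_succ']
            exact hP _ (ih b hb)
        have h2 : (φ⁻¹ : MulAut K) = φ ^ (p - 1) := by
          rw [inv_eq_iff_mul_eq_one, ← pow_succ', Nat.sub_add_cancel hp.out.one_lt.le, hφ]
        rw [h2]
        exact h1 _ _ b.2
      have h1 := Subgroup.mem_center_iff.1 ha ⟨(φ⁻¹ : MulAut K) (b : K), hinv b⟩
      have h2 : (φ⁻¹ : MulAut K) (b : K) * (a : K) = (a : K) * (φ⁻¹ : MulAut K) (b : K) :=
        congrArg Subtype.val h1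
      have h3 := congrArg φ h2
      rw [map_mul, map_mul, MulAut.apply_inv_self] at h3
      exact Subtype.ext h3
    · have e : x * ι a * x⁻¹ = (MulAut.conj x) (ι a) := rfl
      rw [e, ← map_pow, ha', map_one]

end Pool.Agent.Helper78.WeakMin
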