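import Mathlib

set_option autoImplicit false

namespace Pool.Agent.Helper78.WeakMin

/-- Step 1 of the identities: `z` commutes with `z` conjugated by `x ^ 2`. -/
theorem commute_sq {G : Type*} [Group G] (N : Subgroup G) [hN : N.Normal] (x y : G)
    (h : ∀ z ∈ N, Commute (y * z) (x⁻¹ * (y * z) * x)) (z : G) (hz : z ∈ N) :
    Commute z ((x ^ 2)⁻¹ * z * x ^ 2) := by
  -- basic relation
  have hy : y * (x⁻¹ * y * x) = x⁻¹ * y * x * y := by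
    have := h 1 N.one_mem
    simpa using this.eq
  have key : ∀ z ∈ N, (x⁻¹ * y⁻¹ * x) * z * (x⁻¹ * y * x) * (x⁻¹ * z * x)
      = (y⁻¹ * x⁻¹ * z * x * y) * z := by
    intro z hz
    have h1 := (h z hz).eq
    -- y z y^x z^x = y^x z^x y z
    have h2 : y * (x⁻¹ * y * x) * ((x⁻¹ * y⁻¹ * x) * z * (x⁻¹ * y * x) * (x⁻¹ * z * x))
        = (x⁻¹ * y * x) * y * ((y⁻¹ * x⁻¹ * z * x * y) * z) := by
      calc _ = y * z * (x⁻¹ * (y * z) * x) := by group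
        _ = _ := by rw [h1]; group
    rw [hy] at h2
    exact mul_left_cancel h2
  -- apply to w = z1, z2, z1 z2, with z1 = y⁻¹ x⁻¹ z2 x y
  have hmem : ∀ g : G, ∀ a ∈ N, g⁻¹ * a * g ∈ N := fun g a ha => by
    have := hN.conj_mem a ha g⁻¹
    simpa using this
  -- (z2^{y^x}) commutes with z1^x where z1 = z2^{xy}
  have step : ∀ b ∈ N, Commute ((x⁻¹ * y⁻¹ * x) * b * (x⁻¹ * y * x))
      (x⁻¹ * (y⁻¹ * x⁻¹ * b * x * y) * x) := by
    intro b hb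
    have ha : y⁻¹ * x⁻¹ * b * x * y ∈ N := by
      have := hmem (x * y) b hb
      simpa [mul_assoc] using this
    set a := y⁻¹ * x⁻¹ * b * x * y with ha'
    have k1 := key a ha
    have k2 := key b hb
    have k3 := key (a * b) (N.mul_mem ha hb)
    rw [← ha'] at k2
    -- k1 : a^{y^x} a^x = a^{xy} a;  k2 : b^{y^x} b^x = a b; k3
    set u := (x⁻¹ * y⁻¹ * x) * a * (x⁻¹ * y * x) with hu
    set v := (x⁻¹ * y⁻¹ * x) * b * (x⁻¹ * y * x) with hv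
    set ax := x⁻¹ * a * x with hax
    set bx := x⁻¹ * b * x with hbx
    set axy := y⁻¹ * x⁻¹ * a * x * y with haxy
    have k3' : u * v * (ax * bx) = axy * a * (a * b) := by
      have e1 : (x⁻¹ * y⁻¹ * x) * (a * b) * (x⁻¹ * y * x) * (x⁻¹ * (a * b) * x)
          = u * v * (ax * bx) := by rw [hu, hv, hax, hbx]; group
      have e2 : (y⁻¹ * x⁻¹ * (a * b) * x * y) * (a * b) = axy * a * (a * b) := by
        have : y⁻¹ * x⁻¹ * (a * b) * x * y = axy * (y⁻¹ * x⁻¹ * b * x * y) := by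
          rw [haxy]; group
        rw [this, ← ha']
      rw [← e1, ← e2]; exact k3
    -- u * ax = axy * a, v * bx = a * b
    have : u * v * (ax * bx) = u * ax * (v * bx) := by rw [k3', k1, k2]
    have h4 : v * ax = ax * v := by
      have h5 : u * (v * ax) * bx = u * (ax * v) * bx := by
        calc u * (v * ax) * bx = u * v * (ax * bx) := by group
          _ = u * ax * (v * bx) := this
          _ = u * (ax * v) * bx := by group
      exact mul_left_cancel (mul_right_cancel h5)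
    exact h4
  -- conjugate
  have hb : x * z * x⁻¹ ∈ N := hN.conj_mem z hz x
  have h6 := (step (x * z * x⁻¹) hb).eq
  -- (x⁻¹ y⁻¹ x) x z x⁻¹ (x⁻¹ y x) commutes with x⁻¹ y⁻¹ x⁻¹ (x z x⁻¹) x y x
  have h7 : z * ((x ^ 2)⁻¹ * z * x ^ 2) = ((x ^ 2)⁻¹ * z * x ^ 2) * z := by
    have e1 : (x⁻¹ * y⁻¹ * x) * (x * z * x⁻¹) * (x⁻¹ * y * x)
        * (x⁻¹ * (y⁻¹ * x⁻¹ * (x * z * x⁻¹) * x * y) * x)
        = (x⁻¹ * y⁻¹ * x ^ 2) * (z * ((x ^ 2)⁻¹ * z * x ^ 2)) * (x⁻¹ * y⁻¹ * x ^ 2)⁻¹ := by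
      simp only [pow_two, mul_inv_rev, inv_inv, mul_assoc, mul_inv_cancel_left,
        inv_mul_cancel_left]
    have e2 : (x⁻¹ * (y⁻¹ * x⁻¹ * (x * z * x⁻¹) * x * y) * x)
        * ((x⁻¹ * y⁻¹ * x) * (x * z * x⁻¹) * (x⁻¹ * y * x))
        = (x⁻¹ * y⁻¹ * x ^ 2) * (((x ^ 2)⁻¹ * z * x ^ 2) * z) * (x⁻¹ * y⁻¹ * x ^ 2)⁻¹ := by
      simp only [pow_two, mul_inv_rev, inv_inv, mul_assoc, mul_inv_cancel_left,
        inv_mul_cancel_left]
    rw [e1, e2] at h6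
    exact mul_left_cancel (mul_right_cancel h6)
  exact h7

/-- Step 2 of the identities. -/
theorem class_two {G : Type*} [Group G] (N : Subgroup G) [hN : N.Normal] (w : G)
    (h : ∀ z ∈ N, Commute z (w⁻¹ * z * w))
    (honto : ∀ n ∈ N, ∃ k ∈ N, n = w⁻¹ * k⁻¹ * w * k)
    (a b n : G) (ha : a ∈ N) (hb : b ∈ N) (hn : n ∈ N) :
    Commute n (a⁻¹ * b * a * b⁻¹) := by
  have hmem : ∀ g : G, ∀ a ∈ N, g⁻¹ * a * g ∈ N := fun g a ha => by
    have := hN.conj_mem a ha g⁻¹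
    simpa using this
  -- relation (4): c(a^σ, b) = c(a, b^σ)
  have h4 : ∀ a ∈ N, ∀ b ∈ N, (w⁻¹ * a * w)⁻¹ * b * (w⁻¹ * a * w) * b⁻¹
      = a⁻¹ * (w⁻¹ * b * w) * a * (w⁻¹ * b * w)⁻¹ := by
    intro a ha b hb
    have h1 := (h a ha).eq
    have h2 := (h b hb).eq
    have h3 := (h (a * b) (N.mul_mem ha hb)).eq
    set as := w⁻¹ * a * w with has
    set bs := w⁻¹ * b * w with hbs
    have e : w⁻¹ * (a * b) * w = as * bs := by rw [has, hbs]; group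
    rw [e] at h3
    -- h1 : a * as = as * a, h2 : b * bs = bs * b, h3 : a * b * (as * bs) = as * bs * (a * b)
    have h5 : as⁻¹ * b * as = a⁻¹ * bs * a * b * bs⁻¹ := by
      have h6 : a * b * as = as * bs * (a * b) * bs⁻¹ := by
        rw [← h3]; group
      have h7 : b * as = a⁻¹ * (as * bs * (a * b) * bs⁻¹) := by
        rw [← h6]; group
      have h8 : as⁻¹ * a⁻¹ = a⁻¹ * as⁻¹ := by
        rw [← mul_inv_rev, ← mul_inv_rev, h1]
      calc as⁻¹ * b * as = as⁻¹ * (b * as) := by group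
        _ = (as⁻¹ * a⁻¹) * as * bs * a * b * bs⁻¹ := by rw [h7]; group
        _ = a⁻¹ * bs * a * b * bs⁻¹ := by rw [h8]; group
    have h9 : b * bs⁻¹ * b⁻¹ = bs⁻¹ := by
      rw [mul_inv_eq_iff_eq_mul, eq_inv_mul_iff_mul_eq, ← mul_assoc, ← h2]; group
    calc as⁻¹ * b * as * b⁻¹ = a⁻¹ * bs * a * (b * bs⁻¹ * b⁻¹) := by rw [h5]; group
      _ = a⁻¹ * bs * a * bs⁻¹ := by rw [h9]
  -- every element of N is of the form w⁻¹ a w
  have hsurj : ∀ a ∈ N, ∃ a0 ∈ N, a = w⁻¹ * a0 * w := by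
    intro a ha
    exact ⟨w * a * w⁻¹, hN.conj_mem a ha w, by group⟩
  have hc : ∀ a a' b : G, (a * a')⁻¹ * b * (a * a') * b⁻¹
      = a'⁻¹ * (a⁻¹ * b * a * b⁻¹) * a' * (a'⁻¹ * b * a' * b⁻¹) := by
    intro a a' b; group
  have main : ∀ a ∈ N, ∀ b ∈ N, ∀ a' ∈ N, (w⁻¹ * a' * w)⁻¹ * (a⁻¹ * b * a * b⁻¹) * (w⁻¹ * a' * w)
      = a'⁻¹ * (a⁻¹ * b * a * b⁻¹) * a' := by
    intro a ha b hb a' ha'
    obtain ⟨a0, ha0, rfl⟩ := hsurj a ha
    have e1 := h4 (a0 * a') (N.mul_mem ha0 ha') b hb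
    have e2 := h4 a0 ha0 b hb
    have e3 := h4 a' ha' b hb
    have e4 : w⁻¹ * (a0 * a') * w = (w⁻¹ * a0 * w) * (w⁻¹ * a' * w) := by group
    rw [e4, hc, e3] at e1
    have e6 := hc a0 a' (w⁻¹ * b * w)
    rw [e6] at e1
    have e5 := mul_right_cancel e1
    rw [e5, e2]
  obtain ⟨k, hk, hnk⟩ := honto n hn
  have h5 := main a ha b hb k⁻¹ (N.inv_mem hk)
  -- n = w⁻¹ k⁻¹ w k
  set c := a⁻¹ * b * a * b⁻¹ with hcdef
  have h6 : (w⁻¹ * k⁻¹ * w)⁻¹ * c * (w⁻¹ * k⁻¹ * w) = k * c * k⁻¹ := by simpa using h5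
  have h7 : n⁻¹ * c * n = c := by
    rw [hnk]
    calc (w⁻¹ * k⁻¹ * w * k)⁻¹ * c * (w⁻¹ * k⁻¹ * w * k)
        = k⁻¹ * ((w⁻¹ * k⁻¹ * w)⁻¹ * c * (w⁻¹ * k⁻¹ * w)) * k := by group
      _ = c := by rw [h6]; group
  have h8 : c * n = n * c := by
    calc c * n = n * (n⁻¹ * c * n) := by group
      _ = n * c := by rw [h7]
  exact h8.symm

end Pool.Agent.Helper78.WeakMin
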