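import Mathlib
import Pool.Agent.Helper78.WeakMin.Indep
import Pool.Agent.Helper78.WeakMin.FiniteGroup
import Pool.Agent.Helper78.WeakMin.Frob
import Pool.Agent.Helper78.WeakMin.Identities

set_option autoImplicit false

namespace Pool.Agent.Helper78.WeakMin

open Subgroup (closure closure_le centralizer)

/-- A normal subgroup of finite index meeting the centralizer of `x` trivially. -/
theorem exists_normal_fpf {G : Type*} [Group G]
    (hRF : ∀ g : G, g ≠ 1 → ∃ N : Subgroup G, N.Normal ∧ N.index ≠ 0 ∧ g ∉ N)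
    (S : Set G) (hS : S.Finite) (hcent : ∀ x ∈ S, x ≠ 1 → Finite (centralizer ({x} : Set G))) :
    ∃ N : Subgroup G, N.Normal ∧ N.index ≠ 0 ∧
      ∀ x ∈ S, x ≠ 1 → ∀ k ∈ N, x * k = k * x → k = 1 := by
  classical
  let T : Set G := ⋃ x ∈ S \ {1}, (centralizer ({x} : Set G) : Set G)
  have hT : T.Finite := by
    apply Set.Finite.biUnion (hS.subset Set.sdiff_subset)
    rintro x ⟨hx, hx1⟩
    have := hcent x hx hx1
    exact Set.toFinite _
  obtain ⟨N, hN, hNi, hNT⟩ := exists_normal_avoid hRF T hT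
  refine ⟨N, hN, hNi, fun x hx hx1 k hk hkx => ?_⟩
  by_contra hk1
  refine hNT k ?_ hk1 hk
  refine Set.mem_biUnion (x := x) ⟨hx, hx1⟩ ?_
  rw [SetLike.mem_coe, Subgroup.mem_centralizer_iff]
  intro y hy
  rw [Set.mem_singleton_iff.1 hy, hkx]

theorem infinite_of_index_ne_zero {G : Type*} [Group G] [Infinite G] (N : Subgroup G)
    (h : N.index ≠ 0) : Infinite N := by
  rw [← not_finite_iff_infinite]
  intro hf
  have hfi : N.FiniteIndex := ⟨h⟩
  have := (N.finite_iff_finite_and_finiteIndex).2 ⟨hf, hfi⟩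
  exact not_finite G

/-- No abelian normal subgroup of finite index. -/
theorem false_of_abelian {G : Type*} [Group G] [Infinite G]
    (hcent : ∀ x : G, x ≠ 1 → Finite (centralizer ({x} : Set G)))
    (N : Subgroup G) (hNi : N.index ≠ 0) (hab : ∀ a ∈ N, ∀ b ∈ N, a * b = b * a) : False := by
  have hinf := infinite_of_index_ne_zero N hNi
  obtain ⟨⟨a, ha⟩, ha1⟩ := exists_ne (1 : N)
  have ha1' : a ≠ 1 := fun h => ha1 (Subtype.ext h)
  have hle : N ≤ centralizer ({a} : Set G) := by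
    intro b hb
    rw [Subgroup.mem_centralizer_iff]
    intro y hy
    rw [Set.mem_singleton_iff.1 hy]
    exact hab a ha b hb
  have := hcent a ha1'
  have hf : Finite N :=
    Finite.of_injective (Subgroup.inclusion hle) (Subgroup.inclusion_injective _)
  exact not_finite N

/-- No involutions. -/
theorem no_involution {G : Type*} [Group G] [Infinite G] (htor : ∀ g : G, IsOfFinOrder g)
    (hRF : ∀ g : G, g ≠ 1 → ∃ N : Subgroup G, N.Normal ∧ N.index ≠ 0 ∧ g ∉ N)
    (hcent : ∀ x : G, x ≠ 1 → Finite (centralizer ({x} : Set G))) (x : G) : orderOf x ≠ 2 := by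
  intro hx
  have hx2 : x * x = 1 := by
    have := pow_orderOf_eq_one x
    rwa [hx, pow_two] at this
  have hx1 : x ≠ 1 := by
    rintro rfl
    simp at hx
  obtain ⟨N, hN, hNi, hNx⟩ := exists_normal_fpf hRF {x} (Set.finite_singleton x)
    (fun y hy hy1 => hcent y hy1)
  have hNx' := hNx x rfl hx1
  have hconj : ∀ g ∈ N, Finite (closure {x, g⁻¹ * x * g}) := by
    intro g _
    apply finite_closure_involutions htor _ _ hx2
    calc g⁻¹ * x * g * (g⁻¹ * x * g) = g⁻¹ * (x * x) * g := by group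
      _ = 1 := by rw [hx2]; group
  have hinv : ∀ n ∈ N, x * n * x = n⁻¹ := by
    intro n hn
    obtain ⟨-, k, -, hk⟩ := frob_prop N x hNx' hconj n hn
    have h1 : x * n = k⁻¹ * x * k := by
      rw [hk]; group
    have h2 : (x * n) * (x * n) = 1 := by
      rw [h1]
      calc k⁻¹ * x * k * (k⁻¹ * x * k) = k⁻¹ * (x * x) * k := by group
        _ = 1 := by rw [hx2]; group
    rw [eq_inv_iff_mul_eq_one, ← h2]; group
  refine false_of_abelian hcent N hNi ?_
  intro a ha b hb
  have h1 := hinv _ (mul_mem ha hb)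
  have h2 : x * (a * b) * x = (x * a * x) * (x * b * x) := by
    calc x * (a * b) * x = x * a * 1 * b * x := by group
      _ = x * a * (x * x) * b * x := by rw [hx2]
      _ = _ := by group
  rw [h2, hinv a ha, hinv b hb, mul_inv_rev] at h1
  have h3 := congrArg (fun z => z⁻¹) h1
  simpa using h3.symm

/-- The main step: under the finiteness hypothesis on pairs of conjugate elements there is a
contradiction. -/
theorem main0 {G : Type*} [Group G] [Infinite G] (htor : ∀ g : G, IsOfFinOrder g)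
    (hRF : ∀ g : G, g ≠ 1 → ∃ N : Subgroup G, N.Normal ∧ N.index ≠ 0 ∧ g ∉ N)
    (hcent : ∀ x : G, x ≠ 1 → Finite (centralizer ({x} : Set G)))
    (hconj : ∀ p : ℕ, p.Prime → p ≠ 2 → ∀ x : G, orderOf x = p → ∀ g : G,
      Finite (closure {x, g⁻¹ * x * g})) : False := by
  classical
  -- choose x of prime order
  obtain ⟨x0, hx0⟩ := exists_ne (1 : G)
  have hord0 : orderOf x0 ≠ 1 := fun h => hx0 (orderOf_eq_one_iff.1 h)
  obtain ⟨p, hp, hpd⟩ := Nat.exists_prime_and_dvd hord0
  have hpos : 0 < orderOf x0 := (htor x0).orderOf_pos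
  set x := x0 ^ (orderOf x0 / p) with hxdef
  have hx : orderOf x = p := by
    rw [hxdef]
    exact orderOf_pow_orderOf_div hpos.ne' hpd
  have hp2 : p ≠ 2 := fun h => no_involution htor hRF hcent x (hx.trans h)
  have : Fact p.Prime := ⟨hp⟩
  have hxp : x ^ p = 1 := by rw [← hx]; exact pow_orderOf_eq_one x
  have hx1 : x ≠ 1 := by
    intro h
    rw [h, orderOf_one] at hx
    exact hp.one_lt.ne hx
  obtain ⟨N, hN, hNi, hNx⟩ := exists_normal_fpf hRF {x} (Set.finite_singleton x)
    (fun y hy hy1 => hcent y hy1)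
  have hNx' := hNx x rfl hx1
  have hfinx : ∀ g ∈ N, Finite (closure {x, g⁻¹ * x * g}) := fun g _ => hconj p hp hp2 x hx g
  have hNinf := infinite_of_index_ne_zero N hNi
  obtain ⟨⟨n0, hn0⟩, hn01⟩ := exists_ne (1 : N)
  have hn01' : n0 ≠ 1 := fun h => hn01 (Subtype.ext h)
  obtain ⟨s, V, hs, hVf, hVN, hVne, hVs, hVab, hVx⟩ :=
    exists_elem_abelian N x p hxp hNx' hfinx n0 hn0 hn01'
  have : Fact s.Prime := ⟨hs⟩
  obtain ⟨N1, hN1, hN1i, hN1V⟩ := exists_normal_fpf hRF (V : Set G) (Set.toFinite _)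
    (fun y hy hy1 => hcent y hy1)
  -- N' = N ⊓ N1
  set N' := N ⊓ N1 with hN'
  have hN'n : N'.Normal := inferInstance
  have hN'i : N'.index ≠ 0 := Subgroup.index_inf_ne_zero hNi hN1i
  have hN'N : N' ≤ N := inf_le_left
  have hVfpf : ∀ v ∈ V, v ≠ 1 → ∀ k ∈ N', v * k = k * v → k = 1 := fun v hv hv1 k hk h =>
    hN1V v hv hv1 k hk.2 h
  have hordV : ∀ v ∈ V, v ≠ 1 → orderOf v = s := fun v hv hv1 =>
    orderOf_eq_prime (hVs v hv) hv1
  have hs2 : ∀ v ∈ V, v ≠ 1 → s ≠ 2 := fun v hv hv1 h =>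
    no_involution htor hRF hcent v ((hordV v hv hv1).trans h)
  have hfinv : ∀ v ∈ V, v ≠ 1 → ∀ g ∈ N', Finite (closure {v, g⁻¹ * v * g}) :=
    fun v hv hv1 g _ => hconj s hs (hs2 v hv hv1) v (hordV v hv hv1) g
  obtain ⟨y, hyV, hy1⟩ : ∃ y ∈ V, y ≠ 1 := by
    by_contra hcon
    push Not at hcon
    exact hVne ((Subgroup.eq_bot_iff_forall _).2 hcon)
  -- V is invariant under all powers of x
  have hVx' : ∀ i : ℕ, ∀ v ∈ V, x ^ i * v * (x ^ i)⁻¹ ∈ V := by
    intro i
    induction i with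
    | zero => intro v hv; simpa using hv
    | succ i ih =>
      intro v hv
      have h1 := hVx _ (ih v hv)
      have e : x ^ (i + 1) * v * (x ^ (i + 1))⁻¹ = x * (x ^ i * v * (x ^ i)⁻¹) * x⁻¹ := by
        rw [pow_succ']; group
      rw [e]; exact h1
  have hxinv : x⁻¹ = x ^ (p - 1) := by
    rw [inv_eq_iff_mul_eq_one, ← pow_succ', Nat.sub_add_cancel hp.one_lt.le, hxp]
  have hVxinv : ∀ v ∈ V, x⁻¹ * v * x ∈ V := by
    intro v hv
    have h1 := hVx' (p - 1) v hv
    rw [← hxinv, inv_inv] at h1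
    exact h1
  have hpow : ∀ i : ℤ, ∃ j : ℕ, x ^ i = x ^ j := by
    intro i
    obtain ⟨j, hj⟩ := (IsOfFinOrder.mem_powers_iff_mem_zpowers (htor x)).2 ⟨i, rfl⟩
    exact ⟨j, hj.symm⟩
  have hVxz : ∀ i : ℤ, ∀ v ∈ V, x ^ i * v * (x ^ i)⁻¹ ∈ V := by
    intro i v hv
    obtain ⟨j, hj⟩ := hpow i
    rw [hj]; exact hVx' j v hv
  -- the crucial commutation
  have hcomm : ∀ z ∈ N', Commute (y * z) (x⁻¹ * (y * z) * x) := by
    intro z hz
    have hyN : y ∈ N := hVN hyV
    have hyzN : y * z ∈ N := mul_mem hyN (hN'N hz)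
    obtain ⟨hJf, -⟩ := frob_prop N x hNx' hfinx (y * z) hyzN
    set J := closure {x, y * z} with hJ
    have hxJ : x ∈ J := Subgroup.subset_closure (by simp)
    have hyzJ : y * z ∈ J := Subgroup.subset_closure (by simp)
    -- form of the elements of J
    have hform : ∀ g ∈ J, ∃ i : ℤ, ∃ v ∈ V, ∃ n ∈ N', g = x ^ i * v * n := by
      intro g hg
      refine Subgroup.closure_induction
        (p := fun g _ => ∃ i : ℤ, ∃ v ∈ V, ∃ n ∈ N', g = x ^ i * v * n) ?_ ?_ ?_ ?_ hg
      · rintro g (rfl | hg)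
        · exact ⟨1, 1, one_mem _, 1, one_mem _, by simp⟩
        · rw [Set.mem_singleton_iff.1 hg]
          exact ⟨0, y, hyV, z, hz, by simp⟩
      · exact ⟨0, 1, one_mem _, 1, one_mem _, by simp⟩
      · rintro _ _ _ _ ⟨i, v, hv, n, hn, rfl⟩ ⟨j, w, hw, m, hm, rfl⟩
        refine ⟨i + j, (x ^ (-j) * v * (x ^ (-j))⁻¹) * w, mul_mem (hVxz _ v hv) hw,
          (w⁻¹ * (x ^ j)⁻¹) * n * (w⁻¹ * (x ^ j)⁻¹)⁻¹ * m,
          mul_mem (hN'n.conj_mem _ hn _) hm, ?_⟩
        rw [zpow_add, zpow_neg]; group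
      · rintro _ _ ⟨i, v, hv, n, hn, rfl⟩
        refine ⟨-i, x ^ i * v⁻¹ * (x ^ i)⁻¹, hVxz _ _ (inv_mem hv),
          (x ^ i * v) * n⁻¹ * (x ^ i * v)⁻¹, hN'n.conj_mem _ (inv_mem hn) _, ?_⟩
        rw [zpow_neg]; group
    have hformN : ∀ g ∈ J, g ∈ N → ∃ v ∈ V, ∃ n ∈ N', g = v * n := by
      intro g hgJ hgN
      obtain ⟨i, v, hv, n, hn, rfl⟩ := hform g hgJ
      have h1 : x ^ i ∈ N := by
        have h2 := mul_mem hgN (inv_mem (mul_mem (hVN hv) (hN'N hn)))
        have e : x ^ i * v * n * (v * n)⁻¹ = x ^ i := by group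
        rwa [e] at h2
      have h2 : x ^ i = 1 := hNx' _ h1 ((Commute.refl x).zpow_right i).eq
      exact ⟨v, hv, n, hn, by rw [h2, one_mul]⟩
    let K : Subgroup J := N.subgroupOf J
    let K3 : Subgroup J := N'.subgroupOf J
    have hK3 : K3 = ⊥ := by
      refine kernel_trivial K K3 ?_ (⟨x, hxJ⟩ : J) p (Subtype.ext hxp) ?_ s ?_ ?_ ?_
      · intro k hk
        exact hN'N hk
      · intro k hk hkx
        exact Subtype.ext (hNx' k hk (congrArg Subtype.val hkx))
      · -- s divides card K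
        obtain ⟨-, k, -, hk⟩ := frob_prop N' y (hVfpf y hyV hy1) (hfinv y hyV hy1) z hz
        have h1 : y * z = k⁻¹ * y * k := by rw [hk]; group
        have h2 : orderOf (y * z) = s := by
          rw [h1]
          have : k⁻¹ * y * k = MulAut.conj k⁻¹ y := by simp
          rw [this, MulEquiv.orderOf_eq, hordV y hyV hy1]
        have h5 := orderOf_dvd_natCard (⟨⟨y * z, hyzJ⟩, hyzN⟩ : K)
        have h6 : orderOf (⟨⟨y * z, hyzJ⟩, hyzN⟩ : K) = orderOf (y * z) := by
          rw [← Subgroup.orderOf_coe, ← Subgroup.orderOf_coe]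
        rwa [h6, h2] at h5
      · -- s does not divide card K3
        intro hdvd
        obtain ⟨⟨⟨c, hcJ⟩, hcN'⟩, hc⟩ := exists_prime_orderOf_dvd_card' (G := K3) s hdvd
        have h6 : orderOf (⟨⟨c, hcJ⟩, hcN'⟩ : K3) = orderOf c := by
          rw [← Subgroup.orderOf_coe, ← Subgroup.orderOf_coe]
        rw [h6] at hc
        exact no_order_p N' y s (hVs y hyV) (hVfpf y hyV hy1) (hfinv y hyV hy1) c hcN' hc
      · intro l hl hl3 c hc hlc
        obtain ⟨v, hv, n, hn, hln⟩ := hformN l l.2 hl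
        have hv1 : v ≠ 1 := by
          rintro rfl
          apply hl3
          change (l : G) ∈ N'
          rw [hln, one_mul]; exact hn
        obtain ⟨-, k, hk, hkn⟩ := frob_prop N' v (hVfpf v hv hv1) (hfinv v hv hv1) n hn
        have h1 : (l : G) = k⁻¹ * v * k := by rw [hln, hkn]; group
        have h2 : (l : G) * c = c * l := congrArg Subtype.val hlc
        have h3 : v * (k * c * k⁻¹) = (k * c * k⁻¹) * v := by
          rw [h1] at h2
          calc v * (k * c * k⁻¹) = k * (k⁻¹ * v * k * c) * k⁻¹ := by group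
            _ = k * (c * (k⁻¹ * v * k)) * k⁻¹ := by rw [h2]
            _ = (k * c * k⁻¹) * v := by group
        have h4 := hVfpf v hv hv1 _ (hN'n.conj_mem (c : G) hc k) h3
        have h5 : (c : G) = 1 := by
          calc (c : G) = k⁻¹ * (k * c * k⁻¹) * k := by group
            _ = 1 := by rw [h4]; group
        exact Subtype.ext h5
    -- commutator is in K3
    set a := y * z with ha
    set b := x⁻¹ * a * x with hb
    have hbJ : b ∈ J := mul_mem (mul_mem (inv_mem hxJ) hyzJ) hxJ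
    have hbN : b ∈ N := by
      have := hN.conj_mem a hyzN x⁻¹
      simpa using this
    obtain ⟨v, hv, n, hn, hvn⟩ := hformN a hyzJ hyzN
    obtain ⟨w, hw, m, hm, hwm⟩ := hformN b hbJ hbN
    have hcomN' : (b * a)⁻¹ * (a * b) ∈ N' := by
      rw [← QuotientGroup.eq_one_iff]
      have hn1 : (QuotientGroup.mk n : G ⧸ N') = 1 := (QuotientGroup.eq_one_iff n).2 hn
      have hm1 : (QuotientGroup.mk m : G ⧸ N') = 1 := (QuotientGroup.eq_one_iff m).2 hm
      have hvw : (QuotientGroup.mk v : G ⧸ N') * QuotientGroup.mk w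
          = QuotientGroup.mk w * QuotientGroup.mk v := by
        rw [← QuotientGroup.mk_mul, ← QuotientGroup.mk_mul, hVab v hv w hw]
      rw [hvn, hwm]
      simp only [QuotientGroup.mk_mul, QuotientGroup.mk_inv, hn1, hm1, mul_one]
      rw [hvw, inv_mul_cancel]
    have h1 : (⟨(b * a)⁻¹ * (a * b), J.mul_mem (J.inv_mem (J.mul_mem hbJ hyzJ))
        (J.mul_mem hyzJ hbJ)⟩ : J) ∈ K3 := hcomN'
    rw [hK3, Subgroup.mem_bot] at h1
    have h2 := congrArg Subtype.val h1
    have h3 : (b * a)⁻¹ * (a * b) = 1 := h2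
    rw [inv_mul_eq_one] at h3
    exact h3.symm
  -- conclude
  have hsq := commute_sq N' x y hcomm
  have hxx : orderOf (x ^ 2) = p := by
    have hco : Nat.Coprime (orderOf x) 2 := by
      rw [hx]
      exact (Nat.coprime_primes hp Nat.prime_two).2 hp2
    rw [Nat.Coprime.orderOf_pow hco, hx]
  have hxxN : ∀ k ∈ N', x ^ 2 * k = k * x ^ 2 → k = 1 := by
    intro k hk h
    have h2p : 2 < p := lt_of_le_of_ne hp.two_le hp2.symm
    exact hNx' k (hN'N hk) (commute_of_pow hp hxp (by norm_num) h2p h)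
  have hab : ∀ a ∈ N', ∀ b ∈ N', a * b = b * a := by
    have hN'inf := infinite_of_index_ne_zero N' hN'i
    intro a ha b hb
    by_contra hne
    set c := a⁻¹ * b * a * b⁻¹ with hc
    have hc1 : c ≠ 1 := by
      intro h
      apply hne
      rw [hc] at h
      have h1 : a⁻¹ * b * a = b := mul_inv_eq_one.1 h
      calc a * b = a * (a⁻¹ * b * a) := by rw [h1]
        _ = b * a := by group
    have hle : N' ≤ centralizer ({c} : Set G) := by
      intro n hn
      rw [Subgroup.mem_centralizer_iff]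
      intro u hu
      rw [Set.mem_singleton_iff.1 hu]
      refine (class_two N' (x ^ 2) (fun z hz => hsq z hz) ?_ a b n ha hb hn).symm.eq
      intro n hn
      obtain ⟨-, k, hk, hkn⟩ := frob_prop N' (x ^ 2) hxxN
        (fun g _ => hconj p hp hp2 (x ^ 2) hxx g) n hn
      exact ⟨k, hk.1, hkn⟩
    have := hcent c hc1
    have hf : Finite N' :=
      Finite.of_injective (Subgroup.inclusion hle) (Subgroup.inclusion_injective _)
    exact not_finite N'
  exact false_of_abelian hcent N' hN'i hab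

end Pool.Agent.Helper78.WeakMin
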