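import Mathlib
import Pool.Agent.Helper78.WeakMin.Indep

set_option autoImplicit false

namespace Pool.Agent.Helper78.WeakMin

open Subgroup (closure closure_le centralizer)

/-- Weak minimal condition gives a minimal infinite subgroup. -/
theorem exists_min_infinite {G : Type*} [Group G] [Infinite G]
    (hmin : ∀ H : ℕ → Subgroup G, Antitone H →
        ∃ n : ℕ, ∀ m : ℕ, n ≤ m → ((H (m + 1)).subgroupOf (H m)).index ≠ 0) :
    ∃ H0 : Subgroup G, Infinite H0 ∧ ∀ K ≤ H0, Infinite K → K.relIndex H0 ≠ 0 := by
  by_contra hcon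
  push Not at hcon
  have hstep : ∀ H : {H : Subgroup G // Infinite H}, ∃ K : {H : Subgroup G // Infinite H},
      K.1 ≤ H.1 ∧ K.1.relIndex H.1 = 0 := by
    intro H
    obtain ⟨K, hK, hKi, hKr⟩ := hcon H.1 H.2
    exact ⟨⟨K, hKi⟩, hK, hKr⟩
  choose nxt hle hidx using hstep
  have htop : Infinite (⊤ : Subgroup G) := Set.infinite_univ.to_subtype
  let S0 : {H : Subgroup G // Infinite H} := ⟨⊤, htop⟩
  let S : ℕ → {H : Subgroup G // Infinite H} := fun n => nxt^[n] S0
  have hS : ∀ n, S (n + 1) = nxt (S n) := fun n => Function.iterate_succ_apply' _ _ _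
  obtain ⟨n, hn⟩ := hmin (fun n => (S n).1) (by
    apply antitone_nat_of_succ_le
    intro n
    rw [hS]; exact hle _)
  apply hn n le_rfl
  have := hidx (S n)
  rw [← hS] at this
  exact this

/-- In a torsion group, the subgroup generated by commuting subgroups, one finite and the other
cyclic, is finite. -/
theorem finite_closure_insert {G : Type*} [Group G] (htor : ∀ g : G, IsOfFinOrder g) (Y : Set G)
    (hY : Finite (closure Y)) (x : G) (hx : x ∈ centralizer (closure Y : Set G)) :
    Finite (closure (insert x Y)) := by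
  have hxfin : Finite (Subgroup.zpowers x) := finite_zpowers.2 (htor x)
  let φ : closure Y × Subgroup.zpowers x →* G :=
    MonoidHom.noncommCoprod (closure Y).subtype (Subgroup.zpowers x).subtype (by
      rintro ⟨a, ha⟩ ⟨b, hb⟩
      obtain ⟨k, rfl⟩ := hb
      have h1 : Commute x a := (Subgroup.mem_centralizer_iff.1 hx a ha).symm
      exact (h1.zpow_left k).symm)
  have hφ : Finite φ.range := Finite.of_surjective _ φ.rangeRestrict_surjective
  have hle : closure (insert x Y) ≤ φ.range := by
    rw [closure_le]
    rintro z (rfl | hz)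
    · exact ⟨(1, ⟨z, Subgroup.mem_zpowers z⟩), by simp [φ]⟩
    · exact ⟨(⟨z, Subgroup.subset_closure hz⟩, 1), by simp [φ]⟩
  exact Set.Finite.to_subtype ((Set.toFinite (φ.range : Set G)).subset hle)

/-- If infinite subgroups have finite index, then some normal subgroup of finite index has all
its nontrivial elements with finite centralizer. -/
theorem exists_finite_centralizers {G : Type*} [Group G] (htor : ∀ g : G, IsOfFinOrder g)
    (hRF : ∀ g : G, g ≠ 1 → ∃ N : Subgroup G, N.Normal ∧ N.index ≠ 0 ∧ g ∉ N)
    (hFF : ∀ K : Subgroup G, Infinite K → K.index ≠ 0) :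
    ∃ N : Subgroup G, N.Normal ∧ N.index ≠ 0 ∧
      ∀ x ∈ N, x ≠ 1 → Finite (centralizer ({x} : Set G)) := by
  classical
  by_contra hcon
  push Not at hcon
  obtain ⟨y, hy⟩ := exists_indep_seq (G := G)
    (fun Y => Finite (closure (Y : Set G)) ∧ (centralizer (closure (Y : Set G) : Set G)).index ≠ 0)
    (by
      refine ⟨?_, ?_⟩
      · rw [Finset.coe_empty, Subgroup.closure_empty]
        infer_instance
      · rw [Finset.coe_empty, Subgroup.closure_empty]
        have : centralizer ((⊥ : Subgroup G) : Set G) = ⊤ := by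
          rw [Subgroup.coe_bot]
          exact Subgroup.centralizer_eq_top_iff_subset.2 (by
            intro z hz
            rw [Set.mem_singleton_iff.1 hz]; exact one_mem _)
        rw [this]; simp)
    (by
      rintro Y ⟨hYf, hYc⟩ M hMn hMi
      -- the normal core of the centralizer
      set C := centralizer (closure (Y : Set G) : Set G) with hC
      have hCf : C.FiniteIndex := ⟨hYc⟩
      obtain ⟨A, hA, hAi, hAY⟩ := exists_normal_avoid hRF (closure (Y : Set G) : Set G)
        (Set.toFinite _)
      have hN : (M ⊓ C.normalCore ⊓ A).Normal := inferInstance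
      have hNi : (M ⊓ C.normalCore ⊓ A).index ≠ 0 :=
        Subgroup.index_inf_ne_zero (Subgroup.index_inf_ne_zero hMi
          (Subgroup.finiteIndex_normalCore (H := C)).index_ne_zero) hAi
      obtain ⟨x, hx, hx1, hxc⟩ := hcon _ hN hNi
      obtain ⟨⟨hxM, hxC⟩, hxA⟩ := hx
      have hxC' : x ∈ C := C.normalCore_le hxC
      have hxY : x ∉ closure (Y : Set G) := fun h => hAY x h hx1 hxA
      obtain ⟨M', hM', hM'i, hxM'⟩ := exists_normal_sep hRF (closure (Y : Set G)) x hxY
      refine ⟨x, hxM, ⟨insert x Y, by simp, ?_, ?_⟩, M', hM', hM'i, hxM'⟩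
      · rw [Finset.coe_insert]
        exact finite_closure_insert htor _ hYf x hxC'
      · rw [Finset.coe_insert, Subgroup.centralizer_closure]
        have hinf : Infinite (centralizer ({x} : Set G)) := hxc
        have h1 := Subgroup.index_inf_ne_zero (hFF _ hinf) hYc
        have h2 : centralizer ({x} : Set G) ⊓ C ≤ centralizer (insert x (Y : Set G)) := by
          intro z hz
          rw [Subgroup.mem_centralizer_iff]
          rintro w (rfl | hw)
          · exact Subgroup.mem_centralizer_iff.1 hz.1 w rfl
          · exact Subgroup.mem_centralizer_iff.1 hz.2 w (Subgroup.subset_closure hw)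
        exact fun h3 => h1 (Nat.eq_zero_of_zero_dvd (h3 ▸ Subgroup.index_dvd_of_le h2)))
  exact false_of_indep_of_FF hFF hy

end Pool.Agent.Helper78.WeakMin
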